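import Pool.Agent.J4H62.FC.Kernel

/-!
# Colourings from the common neighbourhoods of the cliques
-/

set_option autoImplicit false

namespace Pool.Agent.J4H62.FC

open Finset Matrix

variable {V : Type} [Fintype V] [DecidableEq V] (G : SimpleGraph V) [DecidableRel G.Adj]

/-- The common neighbours of the vertices of `K`. -/
def CN (K : Finset V) : Finset V := univ.filter fun x => ∀ a ∈ K, G.Adj a x

/-- The set `X` of vertices can be coloured with `k` colours. -/
def ColX (X : Finset V) (k : ℕ) : Prop :=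
  ∃ f : V → ℕ, (∀ x ∈ X, f x < k) ∧ ∀ u ∈ X, ∀ v ∈ X, G.Adj u v → f u ≠ f v

theorem colX_mono (X : Finset V) {k l : ℕ} (h : k ≤ l) (hc : ColX G X k) : ColX G X l := by
  obtain ⟨f, h1, h2⟩ := hc
  exact ⟨f, fun x hx => (h1 x hx).trans_le h, h2⟩

theorem card_image_le_of (X : Finset V) (φ : V → Finset V) (c : ℕ)
    (h : ∀ T ⊆ X, (∀ u ∈ T, ∀ v ∈ T, φ u = φ v → u = v) → T.card ≤ c) :
    (X.image φ).card ≤ c := by
  classical
  obtain ⟨T', hT'X, hbij⟩ := Set.exists_subset_bijOn (X : Set V) φ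
  have hfin : T'.Finite := X.finite_toSet.subset hT'X
  have hTX : hfin.toFinset ⊆ X := by
    intro x hx
    exact hT'X (hfin.mem_toFinset.1 hx)
  have h1 := h hfin.toFinset hTX (fun u hu v hv huv =>
    hbij.injOn (hfin.mem_toFinset.1 hu) (hfin.mem_toFinset.1 hv) huv)
  refine le_trans ?_ h1
  have h3 : X.image φ = hfin.toFinset.image φ := by
    ext c
    rw [Finset.mem_image, Finset.mem_image]
    constructor
    · rintro ⟨x, hx, rfl⟩
      obtain ⟨y, hy, hyx⟩ := hbij.surjOn ⟨x, hx, rfl⟩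
      exact ⟨y, hfin.mem_toFinset.2 hy, hyx⟩
    · rintro ⟨x, hx, rfl⟩
      exact ⟨x, hTX hx, rfl⟩
  rw [h3]
  exact Finset.card_image_le

theorem base (X : Finset V) (c : ℕ)
    (h : (X.image fun u => G.neighborFinset u ∩ X).card ≤ c) : ColX G X c := by
  classical
  let φ : V → Finset V := fun u => G.neighborFinset u ∩ X
  let e := (X.image φ).equivFin
  refine ⟨fun x => if hx : φ x ∈ X.image φ then (e ⟨φ x, hx⟩ : ℕ) else 0, ?_, ?_⟩
  · intro x hx
    have hx' : φ x ∈ X.image φ := Finset.mem_image_of_mem _ hx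
    simp only [dif_pos hx']
    exact (e ⟨φ x, hx'⟩).2.trans_le h
  · intro u hu v hv huv heq
    have hu' : φ u ∈ X.image φ := Finset.mem_image_of_mem _ hu
    have hv' : φ v ∈ X.image φ := Finset.mem_image_of_mem _ hv
    simp only [dif_pos hu', dif_pos hv'] at heq
    have h3 := e.injective (Fin.ext heq)
    have h4 : φ u = φ v := congrArg Subtype.val h3
    have h5 : v ∈ φ u := by simp [φ, huv, hv]
    rw [h4] at h5
    simp [φ] at h5

theorem step (r : ℕ) (hr : (G.adjMatrix ℝ).rank ≤ r) (K : Finset V) (k : ℕ) (hk : 1 ≤ k)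
    (h : ∀ x ∈ CN G K, ColX G (CN G (insert x K)) k) : ColX G (CN G K) ((r + 1) * k) := by
  classical
  obtain ⟨T, hTX, hT, hu⟩ := universal G r hr (CN G K) 1
  rw [Nat.choose_one_right] at hT
  have hdom : ∀ x ∈ CN G K, ∀ u ∈ CN G K, G.Adj u x → ∃ v ∈ T, G.Adj v x := by
    intro x hx u hu' hux
    obtain ⟨v, hv, h1⟩ := hu u hu' {((Pi.single x 1 : V → ℝ), (0 : ℝ))} (by simp) (by
      intro a ha
      rw [Finset.mem_singleton] at ha
      rw [ha, sum_single, if_pos hux]
      norm_num)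
    refine ⟨v, hv, ?_⟩
    have h2 := h1 _ (Finset.mem_singleton_self _)
    rw [sum_single] at h2
    by_contra h3
    rw [if_neg h3] at h2
    exact h2 rfl
  choose! f hf1 hf2 using h
  let e := T.equivFin
  -- a dominating vertex
  have hg : ∀ x, ∃ v : V, (∃ w ∈ T, G.Adj w x) → v ∈ T ∧ G.Adj v x := by
    intro x
    by_cases hx : ∃ w ∈ T, G.Adj w x
    · obtain ⟨w, hw, hwx⟩ := hx
      exact ⟨w, fun _ => ⟨hw, hwx⟩⟩
    · exact ⟨x, fun h => absurd h hx⟩
  choose g hg using hg
  let idx : V → ℕ := fun v => if hv : v ∈ T then (e ⟨v, hv⟩ : ℕ) else 0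
  have hidx : ∀ v ∈ T, idx v < r + 1 := by
    intro v hv
    simp only [idx, dif_pos hv]
    exact (e ⟨v, hv⟩).2.trans_le hT
  have hinj : ∀ v ∈ T, ∀ w ∈ T, idx v = idx w → v = w := by
    intro v hv w hw hvw
    simp only [idx, dif_pos hv, dif_pos hw] at hvw
    exact congrArg Subtype.val (e.injective (Fin.ext hvw))
  have hmem : ∀ x ∈ CN G K, ∀ v ∈ T, G.Adj v x → x ∈ CN G (insert v K) := by
    intro x hx v hv hvx
    simp only [CN, Finset.mem_filter, Finset.mem_univ, true_and, Finset.mem_insert] at hx ⊢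
    rintro a (rfl | ha)
    · exact hvx
    · exact hx a ha
  refine ⟨fun x => if (∃ w ∈ T, G.Adj w x) then idx (g x) * k + f (g x) x else 0, ?_, ?_⟩
  · intro x hx
    simp only
    split_ifs with h1
    · obtain ⟨h2, h3⟩ := hg x h1
      have h4 := hf1 (g x) (hTX h2) x (hmem x hx _ h2 h3)
      have h5 := hidx (g x) h2
      calc idx (g x) * k + f (g x) x < idx (g x) * k + k := by omega
        _ = (idx (g x) + 1) * k := by ring
        _ ≤ (r + 1) * k := Nat.mul_le_mul_right k h5
    · positivity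
  · intro u hu' v hv' huv heq
    have h1 : ∃ w ∈ T, G.Adj w u := hdom u hu' v hv' huv.symm
    have h2 : ∃ w ∈ T, G.Adj w v := hdom v hv' u hu' huv
    simp only [if_pos h1, if_pos h2] at heq
    obtain ⟨h3, h4⟩ := hg u h1
    obtain ⟨h5, h6⟩ := hg v h2
    have h7 := hf1 (g u) (hTX h3) u (hmem u hu' _ h3 h4)
    have h8 := hf1 (g v) (hTX h5) v (hmem v hv' _ h5 h6)
    have h9 : idx (g u) = idx (g v) := by
      have h10 := congrArg (fun z => z / k) heq
      rwa [Nat.add_div_of_dvd_right (Dvd.intro_left _ rfl), Nat.mul_div_cancel _ hk,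
        Nat.div_eq_of_lt h7, Nat.add_div_of_dvd_right (Dvd.intro_left _ rfl),
        Nat.mul_div_cancel _ hk, Nat.div_eq_of_lt h8] at h10
    have h11 : g u = g v := hinj _ h3 _ h5 h9
    rw [h9] at heq
    have h12 : f (g u) u = f (g v) v := by omega
    rw [← h11] at h12 h6 h8
    exact hf2 (g u) (hTX h3) u (hmem u hu' _ h3 h4) v (hmem v hv' _ h3 h6) huv h12

theorem cliques (r : ℕ) (hr : (G.adjMatrix ℝ).rank ≤ r) (k c : ℕ) (hc : 1 ≤ c)
    (h : ∀ K : Finset V, G.IsNClique k K → ColX G (CN G K) c) :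
    G.chromaticNumber.toNat ≤ (r + 1) ^ k * c := by
  have key : ∀ j, j ≤ k → ∀ K : Finset V, G.IsNClique (k - j) K →
      ColX G (CN G K) ((r + 1) ^ j * c) := by
    intro j
    induction j with
    | zero =>
      intro _ K hK
      simpa using h K hK
    | succ j ih =>
      intro hj K hK
      have h1 := step G r hr K ((r + 1) ^ j * c) (Nat.mul_pos (pow_pos (by omega) _) hc) ?_
      · rw [pow_succ, mul_comm ((r + 1) ^ j), mul_assoc]
        exact h1
      · intro x hx
        refine ih (by omega) _ ?_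
        have h2 : ∀ b ∈ K, G.Adj x b := by
          intro b hb
          simp only [CN, Finset.mem_filter, Finset.mem_univ, true_and] at hx
          exact (hx b hb).symm
        have h3 := hK.insert h2
        have h4 : k - (j + 1) + 1 = k - j := by omega
        rwa [h4] at h3
  have h1 := key k le_rfl ∅ (by rw [Nat.sub_self]; exact SimpleGraph.isNClique_zero.2 rfl)
  obtain ⟨f, hf1, hf2⟩ := h1
  have hmem : ∀ x, x ∈ CN G ∅ := by intro x; simp [CN]
  have hcol : G.Colorable ((r + 1) ^ k * c) := by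
    refine ⟨SimpleGraph.Coloring.mk (fun x => (⟨f x, hf1 x (hmem x)⟩ : Fin _)) ?_⟩
    intro u v huv heq
    exact hf2 u (hmem u) v (hmem v) huv (congrArg Fin.val heq)
  exact ENat.toNat_le_of_le_coe hcol.chromaticNumber_le

end Pool.Agent.J4H62.FC
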