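import Mathlib

/-!
# Low-degree polynomials on the columns of a matrix of small rank
-/

set_option autoImplicit false

namespace Pool.Agent.J4H62.FC

open Finset Matrix

/-- The multiset of the values of `g`, as a symmetric power. -/
def toSym {O : Type*} {d : ℕ} (g : Fin d → O) : Sym O d :=
  ⟨(Finset.univ : Finset (Fin d)).val.map g, by simp⟩

/-- A matrix whose entries are products of `d` affine functions of points of `ℝ ^ ρ`. -/
theorem rank_prod_aux {T : Type*} [Fintype T] {ρ : ℕ} (d : ℕ)
    (L : T → Fin d → Option (Fin ρ) → ℝ) (Y : T → Option (Fin ρ) → ℝ) (k : T → ℝ) :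
    (Matrix.of (fun v u : T => k v * ∏ i, ∑ o, L v i o * Y u o)).rank ≤ (ρ + d).choose d := by
  classical
  let P : Matrix T (Sym (Option (Fin ρ)) d) ℝ :=
    Matrix.of fun v m => k v * ∑ g : Fin d → Option (Fin ρ) with toSym g = m, ∏ i, L v i (g i)
  let Q : Matrix (Sym (Option (Fin ρ)) d) T ℝ := Matrix.of fun m u => (m.1.map (Y u)).prod
  have hQ : ∀ (g : Fin d → Option (Fin ρ)) (u : T), Q (toSym g) u = ∏ i, Y u (g i) := by
    intro g u
    simp only [Q, Matrix.of_apply, toSym, Multiset.map_map]
    rfl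
  have hPQ : (Matrix.of (fun v u : T => k v * ∏ i, ∑ o, L v i o * Y u o)) = P * Q := by
    ext v u
    rw [Matrix.mul_apply]
    simp only [Matrix.of_apply]
    rw [Finset.prod_univ_sum, Fintype.piFinset_univ]
    have h1 : ∀ m, P v m * Q m u =
        ∑ g : Fin d → Option (Fin ρ) with toSym g = m, k v * ∏ i, L v i (g i) * Y u (g i) := by
      intro m
      simp only [P, Matrix.of_apply]
      rw [mul_assoc, Finset.sum_mul, Finset.mul_sum]
      refine Finset.sum_congr rfl fun g hg => ?_
      rw [Finset.mem_filter] at hg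
      rw [← hg.2, hQ, Finset.prod_mul_distrib]
    rw [Finset.sum_congr rfl fun m _ => h1 m]
    rw [Finset.sum_fiberwise, ← Finset.mul_sum]
  rw [hPQ]
  refine (Matrix.rank_mul_le_left P Q).trans ((Matrix.rank_le_card_width P).trans ?_)
  rw [Sym.card_sym_eq_choose]
  simp

/-- A matrix whose entries are products of `d` affine functions of the columns of a matrix of rank
at most `r`. -/
theorem rank_prod_le {V T : Type*} [Fintype V] [Fintype T] {r : ℕ}
    (A : Matrix V V ℝ) (hA : A.rank ≤ r) (d : ℕ) (p : T → V) (w : T → Fin d → V → ℝ)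
    (c : T → Fin d → ℝ) (k : T → ℝ) :
    (Matrix.of (fun v u : T => k v * ∏ i, (∑ x, w v i x * A x (p u) - c v i))).rank ≤
      (r + d).choose d := by
  classical
  let W := LinearMap.range A.mulVecLin
  have hW : Module.finrank ℝ W = A.rank := rfl
  let b := Module.finBasis ℝ W
  let X : T → W := fun u => ⟨A.mulVecLin (Pi.single (p u) 1), LinearMap.mem_range_self _ _⟩
  have hX : ∀ (u : T) (x : V), A x (p u) = ∑ j, (b.repr (X u) j) * (b j : V → ℝ) x := by
    intro u x
    have h1 : (X u : V → ℝ) x = A x (p u) := by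
      simp only [X, Matrix.mulVecLin_apply, Matrix.mulVec_single_one, Matrix.col_apply]
    rw [← h1]
    have h5 := congrArg (fun z : W => (z : V → ℝ) x) (b.sum_repr (X u))
    simp only [Submodule.coe_sum, Submodule.coe_smul, Finset.sum_apply, Pi.smul_apply,
      smul_eq_mul] at h5
    exact h5.symm
  let L : T → Fin d → Option (Fin (Module.finrank ℝ W)) → ℝ := fun v i o =>
    match o with
    | none => - c v i
    | some j => ∑ x, w v i x * (b j : V → ℝ) x
  let Y : T → Option (Fin (Module.finrank ℝ W)) → ℝ := fun u o =>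
    match o with
    | none => 1
    | some j => b.repr (X u) j
  have h2 : (Matrix.of (fun v u : T => k v * ∏ i, (∑ x, w v i x * A x (p u) - c v i))) =
      Matrix.of (fun v u : T => k v * ∏ i, ∑ o, L v i o * Y u o) := by
    ext v u
    simp only [Matrix.of_apply]
    congr 1
    refine Finset.prod_congr rfl fun i _ => ?_
    rw [Fintype.sum_option]
    simp only [L, Y, mul_one]
    have h3 : ∑ x, w v i x * A x (p u) =
        ∑ j, (∑ x, w v i x * (b j : V → ℝ) x) * b.repr (X u) j := by
      simp only [Finset.sum_mul]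
      rw [Finset.sum_comm]
      refine Finset.sum_congr rfl fun x _ => ?_
      rw [hX u x, Finset.mul_sum]
      refine Finset.sum_congr rfl fun j _ => ?_
      ring
    rw [h3]
    ring
  rw [h2]
  refine (rank_prod_aux d L Y k).trans ?_
  exact Nat.choose_le_choose d (by rw [hW]; omega)

/-- A matrix which is triangular for a preorder has nonzero determinant. -/
theorem det_ne_zero {T R α : Type*} [Fintype T] [DecidableEq T] [CommRing R] [IsDomain R]
    [LinearOrder α] (F : Matrix T T R) (h : T → α) (h1 : ∀ v, F v v ≠ 0)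
    (h2 : ∀ v u, u ≠ v → h u ≤ h v → F v u = 0) : F.det ≠ 0 := by
  classical
  intro h0
  obtain ⟨a, ha, haF⟩ := Matrix.exists_vecMul_eq_zero_iff.2 h0
  have hne : ((univ : Finset T).filter (fun v => a v ≠ 0)).Nonempty := by
    by_contra hcon
    rw [Finset.not_nonempty_iff_eq_empty, Finset.filter_eq_empty_iff] at hcon
    exact ha (funext fun v => by simpa using hcon (Finset.mem_univ v))
  obtain ⟨v0, hv0, hmin⟩ := Finset.exists_min_image _ h hne
  rw [Finset.mem_filter] at hv0
  have h3 := congrFun haF v0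
  rw [Matrix.vecMul, dotProduct, Finset.sum_eq_single v0] at h3
  · rcases mul_eq_zero.1 h3 with h4 | h4
    · exact hv0.2 h4
    · exact h1 v0 h4
  · intro v _ hv
    by_cases hav : a v = 0
    · rw [hav, zero_mul]
    · rw [h2 v v0 (Ne.symm hv) (hmin v (by simp [hav])), mul_zero]
  · intro h4
    exact absurd (Finset.mem_univ v0) h4

theorem card_le_of_det {T : Type*} [Fintype T] [DecidableEq T] (F : Matrix T T ℝ) (n : ℕ)
    (h : F.det ≠ 0) (hr : F.rank ≤ n) : Fintype.card T ≤ n := by
  rw [← Matrix.rank_of_isUnit F ((Matrix.isUnit_iff_isUnit_det F).2 (isUnit_iff_ne_zero.2 h))]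
  exact hr

/-- If `q` is a power of the prime `p` and does not divide `e`, then `p` divides
`(e + q - 1).choose (q - 1)`. -/
theorem dvd_choose (p k e : ℕ) (hp : p.Prime) (he : ¬ p ^ k ∣ e) :
    p ∣ (e + (p ^ k - 1)).choose (p ^ k - 1) := by
  have hq : 0 < p ^ k := pow_pos hp.pos k
  have h1 := Nat.choose_succ_right_eq (e + (p ^ k - 1)) (p ^ k - 1)
  rw [Nat.sub_add_cancel hq, Nat.add_sub_cancel] at h1
  by_contra hcon
  have hco : Nat.Coprime (p ^ k) ((e + (p ^ k - 1)).choose (p ^ k - 1)) :=
    Nat.Coprime.pow_left k ((Nat.Prime.coprime_iff_not_dvd hp).2 hcon)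
  apply he
  exact hco.dvd_of_dvd_mul_left ⟨_, by rw [← h1]; ring⟩

end Pool.Agent.J4H62.FC
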