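import Pool.Agent.J4H62.FC.Core

/-!
# Vertices which are told apart by few hyperplanes
-/

set_option autoImplicit false

namespace Pool.Agent.J4H62.FC

open Finset Matrix

theorem prod_getD {α : Type*} (f : α → ℝ) (z : α) (hz : f z = 1) :
    ∀ (l : List α) (d : ℕ), l.length ≤ d →
      ∏ i : Fin d, f (l.getD (i : ℕ) z) = (l.map f).prod := by
  intro l
  induction l with
  | nil => intro d _; simp [hz]
  | cons a l ih =>
    intro d hd
    obtain ⟨d, rfl⟩ : ∃ e, d = e + 1 := ⟨d - 1, by simp at hd; omega⟩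
    rw [Fin.prod_univ_succ, List.map_cons, List.prod_cons, ← ih d (by simpa using hd)]
    simp

theorem rank_list_le {V T : Type*} [Fintype V] [Fintype T] {r : ℕ}
    (A : Matrix V V ℝ) (hA : A.rank ≤ r) (d : ℕ) (p : T → V)
    (l : T → List ((V → ℝ) × ℝ)) (hl : ∀ v, (l v).length ≤ d) (k : T → ℝ) :
    (Matrix.of (fun v u : T =>
      k v * ((l v).map fun a => ∑ x, a.1 x * A x (p u) - a.2).prod)).rank ≤
      (r + d).choose d := by
  have h1 := rank_prod_le A hA d p (fun v i => ((l v).getD i (0, -1)).1)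
    (fun v i => ((l v).getD i (0, -1)).2) k
  have h2 : (Matrix.of (fun v u : T =>
      k v * ((l v).map fun a => ∑ x, a.1 x * A x (p u) - a.2).prod)) =
      (Matrix.of (fun v u : T => k v * ∏ i : Fin d,
        (∑ x, ((l v).getD i (0, -1)).1 x * A x (p u) - ((l v).getD i (0, -1)).2))) := by
    ext v u
    simp only [Matrix.of_apply]
    rw [prod_getD (fun a : (V → ℝ) × ℝ => ∑ x, a.1 x * A x (p u) - a.2) (0, -1) (by simp)
      (l v) d (hl v)]
  rw [h2]
  exact h1

variable {V : Type} [Fintype V] [DecidableEq V] (G : SimpleGraph V) [DecidableRel G.Adj]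

theorem sum_adj (a : V → ℝ) (u : V) :
    ∑ x, a x * G.adjMatrix ℝ x u = ∑ x ∈ G.neighborFinset u, a x := by
  simp only [SimpleGraph.adjMatrix_apply, mul_ite, mul_one, mul_zero]
  rw [← Finset.sum_filter]
  refine Finset.sum_congr ?_ fun _ _ => rfl
  ext x
  simp [SimpleGraph.adj_comm]

/-- Hyperplanes. -/
theorem card_le_hyper (r : ℕ) (hr : (G.adjMatrix ℝ).rank ≤ r) (T : Finset V) (h : V → ℝ) (d : ℕ)
    (H : ∀ v ∈ T, ∃ H : Finset ((V → ℝ) × ℝ), H.card ≤ d ∧
      (∀ a ∈ H, ∑ x ∈ G.neighborFinset v, a.1 x ≠ a.2) ∧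
      ∀ u ∈ T, u ≠ v → h u ≤ h v → ∃ a ∈ H, ∑ x ∈ G.neighborFinset u, a.1 x = a.2) :
    T.card ≤ (r + d).choose d := by
  classical
  have H' : ∀ v : T, ∃ H : Finset ((V → ℝ) × ℝ), H.card ≤ d ∧
      (∀ a ∈ H, ∑ x ∈ G.neighborFinset v.1, a.1 x ≠ a.2) ∧
      ∀ u ∈ T, u ≠ v.1 → h u ≤ h v.1 → ∃ a ∈ H, ∑ x ∈ G.neighborFinset u, a.1 x = a.2 :=
    fun v => H v.1 v.2
  choose B hB1 hB2 hB3 using H'
  have h1 := rank_list_le (G.adjMatrix ℝ) hr d (fun v : T => v.1) (fun v => (B v).toList)
    (fun v => by rw [Finset.length_toList]; exact hB1 v) (fun _ => 1)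
  have h2 := card_le_of_det _ _ ?_ h1
  · rwa [Fintype.card_coe] at h2
  · refine det_ne_zero _ (fun v : T => h v.1) ?_ ?_
    · intro v
      rw [Matrix.of_apply, one_mul]
      refine List.prod_ne_zero ?_
      intro h0
      rw [List.mem_map] at h0
      obtain ⟨a, ha, hav⟩ := h0
      rw [sum_adj, sub_eq_zero] at hav
      exact hB2 v a (Finset.mem_toList.1 ha) hav
    · intro v u huv hle
      rw [Matrix.of_apply, one_mul]
      obtain ⟨a, ha, hau⟩ := hB3 v u.1 u.2 (fun hc => huv (Subtype.ext hc)) hle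
      refine List.prod_eq_zero ?_
      rw [List.mem_map]
      exact ⟨a, Finset.mem_toList.2 ha, by rw [sum_adj, hau, sub_self]⟩

theorem sum_single (x : V) (u : V) :
    ∑ y ∈ G.neighborFinset u, (Pi.single x 1 : V → ℝ) y = if G.Adj u x then 1 else 0 := by
  simp only [Pi.single_apply]
  rw [Finset.sum_ite_eq']
  simp

/-- Few codegrees, relative to a set `Y`. -/
theorem card_le_codegree (r : ℕ) (hr : (G.adjMatrix ℝ).rank ≤ r) (T Y : Finset V)
    (hT : ∀ u ∈ T, ∀ v ∈ T, G.neighborFinset u ∩ Y = G.neighborFinset v ∩ Y → u = v) (s t : ℕ)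
    (H : ∀ v ∈ T, ∃ (S : Finset V) (m : V → ℝ), S.card ≤ t ∧ (∀ x, 0 < m x) ∧
      ((T.filter fun u => u ≠ v ∧
        (G.neighborFinset u ∩ Y).card ≤ (G.neighborFinset v ∩ Y).card ∧
        G.neighborFinset u ∩ S = G.neighborFinset v ∩ S).image
          fun u => ∑ x ∈ G.neighborFinset u ∩ G.neighborFinset v ∩ Y, m x).card ≤ s) :
    T.card ≤ (r + (s + t)).choose (s + t) := by
  classical
  refine card_le_hyper G r hr T (fun v => ((G.neighborFinset v ∩ Y).card : ℝ)) (s + t) ?_
  intro v hv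
  obtain ⟨S, m, hS, hm, hs⟩ := H v hv
  set F := (T.filter fun u => u ≠ v ∧
        (G.neighborFinset u ∩ Y).card ≤ (G.neighborFinset v ∩ Y).card ∧
        G.neighborFinset u ∩ S = G.neighborFinset v ∩ S) with hF
  set I := F.image fun u => ∑ x ∈ G.neighborFinset u ∩ G.neighborFinset v ∩ Y, m x with hI
  let a1 : ℝ → (V → ℝ) × ℝ := fun c =>
    (fun y => if y ∈ G.neighborFinset v ∩ Y then m y else 0, c)
  let a2 : V → (V → ℝ) × ℝ := fun x => (Pi.single x 1, if G.Adj v x then 0 else 1)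
  have hsum : ∀ u, ∑ x ∈ G.neighborFinset u, (if x ∈ G.neighborFinset v ∩ Y then m x else 0) =
      ∑ x ∈ G.neighborFinset u ∩ G.neighborFinset v ∩ Y, m x := by
    intro u
    rw [← Finset.sum_filter]
    refine Finset.sum_congr ?_ fun _ _ => rfl
    ext x
    simp [and_assoc]
  refine ⟨I.image a1 ∪ S.image a2, ?_, ?_, ?_⟩
  · refine (Finset.card_union_le _ _).trans ?_
    have h1 := Finset.card_image_le (s := I) (f := a1)
    have h2 := Finset.card_image_le (s := S) (f := a2)
    omega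
  · intro a ha
    rw [Finset.mem_union, Finset.mem_image, Finset.mem_image] at ha
    rcases ha with ⟨c, hc, rfl⟩ | ⟨x, _, rfl⟩
    · rw [hI, Finset.mem_image] at hc
      obtain ⟨u, hu, rfl⟩ := hc
      rw [hF, Finset.mem_filter] at hu
      obtain ⟨huT, huv, hdeg, -⟩ := hu
      simp only [a1]
      rw [hsum v, Finset.inter_self]
      refine ne_of_gt ?_
      obtain ⟨i, hi, hi'⟩ : ∃ i ∈ G.neighborFinset v ∩ Y, i ∉ G.neighborFinset u ∩ Y := by
        by_contra hcon
        push Not at hcon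
        exact huv (hT v hv u huT (Finset.eq_of_subset_of_card_le hcon hdeg)).symm
      refine Finset.sum_lt_sum_of_subset (fun x hx => ?_) hi
        (fun hc => hi' ?_) (hm i) fun j _ _ => (hm j).le
      · simp only [Finset.mem_inter] at hx ⊢
        exact ⟨hx.1.2, hx.2⟩
      · simp only [Finset.mem_inter] at hc ⊢
        exact ⟨hc.1.1, hc.2⟩
    · simp only [a2]
      rw [sum_single]
      split_ifs <;> norm_num
  · intro u hu huv hle
    have hle' : (G.neighborFinset u ∩ Y).card ≤ (G.neighborFinset v ∩ Y).card := by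
      exact_mod_cast hle
    by_cases hagr : G.neighborFinset u ∩ S = G.neighborFinset v ∩ S
    · refine ⟨a1 (∑ x ∈ G.neighborFinset u ∩ G.neighborFinset v ∩ Y, m x), ?_, ?_⟩
      · refine Finset.mem_union_left _ (Finset.mem_image_of_mem _ ?_)
        rw [hI]
        refine Finset.mem_image_of_mem _ ?_
        rw [hF, Finset.mem_filter]
        exact ⟨hu, huv, hle', hagr⟩
      · simp only [a1]
        exact hsum u
    · obtain ⟨x, hx⟩ : ∃ x, ¬ (x ∈ G.neighborFinset u ∩ S ↔ x ∈ G.neighborFinset v ∩ S) := by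
        by_contra hcon
        push Not at hcon
        exact hagr (Finset.ext hcon)
      simp only [Finset.mem_inter, SimpleGraph.mem_neighborFinset] at hx
      have hxS : x ∈ S := by
        by_contra hxS
        exact hx (by simp [hxS])
      refine ⟨a2 x, Finset.mem_union_right _ (Finset.mem_image_of_mem _ hxS), ?_⟩
      simp only [a2]
      rw [sum_single]
      by_cases h1 : G.Adj u x <;> by_cases h2 : G.Adj v x <;> simp [h1, h2, hxS] at hx ⊢

end Pool.Agent.J4H62.FC
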