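import Pool.Agent.J4H62.FC.Mod

/-!
# Universal sets of vertices
-/

set_option autoImplicit false

namespace Pool.Agent.J4H62.FC

open Finset Matrix

theorem greedy {V : Type} [DecidableEq V] (W : Finset V) (K : ℕ) (Sep : V → Finset V → Prop)
    (hself : ∀ u T, Sep u T → u ∉ T)
    (hK : ∀ (T : Finset V) (h : V → ℝ), T ⊆ W →
      (∀ v ∈ T, Sep v (T.filter fun u => u ≠ v ∧ h u ≤ h v)) → T.card ≤ K) :
    ∃ T ⊆ W, T.card ≤ K ∧ ∀ u ∈ W, ¬ Sep u T := by
  by_contra hcon
  push Not at hcon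
  have key : ∀ n, n ≤ K + 1 → ∃ T ⊆ W, T.card = n ∧ ∃ h : V → ℝ,
      ∀ v ∈ T, Sep v (T.filter fun u => u ≠ v ∧ h u ≤ h v) := by
    intro n
    induction n with
    | zero => exact fun _ => ⟨∅, by simp, by simp, fun _ => 0, by simp⟩
    | succ n ih =>
      intro hn
      obtain ⟨T, hTW, hTn, h, hh⟩ := ih (by omega)
      obtain ⟨u, huW, hu⟩ := hcon T hTW (by omega)
      have huT := hself u T hu
      set M : ℝ := ∑ x ∈ T, |h x| + 1 with hM
      have hlt : ∀ x ∈ T, h x < M := by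
        intro x hx
        have h1 := Finset.single_le_sum (f := fun x => |h x|) (fun i _ => abs_nonneg _) hx
        have h2 := le_abs_self (h x)
        linarith
      refine ⟨insert u T, Finset.insert_subset huW hTW, by rw [Finset.card_insert_of_notMem huT,
        hTn], fun x => if x = u then M else h x, ?_⟩
      intro v hv
      rw [Finset.mem_insert] at hv
      rcases hv with rfl | hv
      · have h3 : (insert v T).filter (fun w => w ≠ v ∧
            (if w = v then M else h w) ≤ (if v = v then M else h v)) = T := by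
          ext w
          rw [Finset.mem_filter, Finset.mem_insert]
          constructor
          · rintro ⟨h4 | h4, h5, _⟩
            · exact absurd h4 h5
            · exact h4
          · intro h4
            have h5 : w ≠ v := fun hc => huT (hc ▸ h4)
            refine ⟨Or.inr h4, h5, ?_⟩
            rw [if_neg h5, if_pos rfl]
            exact (hlt w h4).le
        rw [h3]
        exact hu
      · have hvu : v ≠ u := fun hc => huT (hc ▸ hv)
        have h3 : (insert u T).filter (fun w => w ≠ v ∧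
            (if w = u then M else h w) ≤ (if v = u then M else h v)) =
            T.filter (fun w => w ≠ v ∧ h w ≤ h v) := by
          ext w
          rw [Finset.mem_filter, Finset.mem_insert, Finset.mem_filter, if_neg hvu]
          constructor
          · rintro ⟨h4, h5, h6⟩
            by_cases hw : w = u
            · rw [if_pos hw] at h6
              exact absurd h6 (not_le.2 (hlt v hv))
            · rw [if_neg hw] at h6
              exact ⟨h4.resolve_left hw, h5, h6⟩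
          · rintro ⟨h4, h5, h6⟩
            have hw : w ≠ u := fun hc => huT (hc ▸ h4)
            rw [if_neg hw]
            exact ⟨Or.inr h4, h5, h6⟩
        rw [h3]
        exact hh v hv
  obtain ⟨T, hTW, hTn, h, hh⟩ := key (K + 1) le_rfl
  have := hK T h hTW hh
  omega

variable {V : Type} [Fintype V] [DecidableEq V] (G : SimpleGraph V) [DecidableRel G.Adj]

/-- Hyperplanes modulo a prime. -/
theorem card_le_hyper_mod (r : ℕ) (hr : (G.adjMatrix ℝ).rank ≤ r) (T : Finset V) (h : V → ℝ)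
    (d p : ℕ) (hp : p.Prime)
    (H : ∀ v ∈ T, ∃ H : Finset ((V → ℤ) × ℤ), H.card ≤ d ∧
      (∀ a ∈ H, ¬ ∑ x ∈ G.neighborFinset v, a.1 x ≡ a.2 [ZMOD p]) ∧
      ∀ u ∈ T, u ≠ v → h u ≤ h v →
        ∃ a ∈ H, ∑ x ∈ G.neighborFinset u, a.1 x ≡ a.2 [ZMOD p]) :
    T.card ≤ (r + d).choose d := by
  classical
  haveI : Fact p.Prime := ⟨hp⟩
  have H' : ∀ v : T, ∃ H : Finset ((V → ℤ) × ℤ), H.card ≤ d ∧
      (∀ a ∈ H, ¬ ∑ x ∈ G.neighborFinset v.1, a.1 x ≡ a.2 [ZMOD p]) ∧
      ∀ u ∈ T, u ≠ v.1 → h u ≤ h v.1 →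
        ∃ a ∈ H, ∑ x ∈ G.neighborFinset u, a.1 x ≡ a.2 [ZMOD p] := fun v => H v.1 v.2
  choose B hB1 hB2 hB3 using H'
  let N : Matrix T T ℤ := Matrix.of fun v u =>
    ∏ a ∈ B v, (∑ x ∈ G.neighborFinset u.1, a.1 x - a.2)
  let l : T → List ((V → ℝ) × ℝ) := fun v =>
    (B v).toList.map (fun a => ((fun x => (a.1 x : ℝ)), (a.2 : ℝ)))
  have h1 := rank_list_le (G.adjMatrix ℝ) hr d (fun v : T => v.1) l
    (fun v => by simp only [l, List.length_map, Finset.length_toList]; exact hB1 v) (fun _ => 1)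
  have hF : (Matrix.of (fun v u : T => (1 : ℝ) *
      ((l v).map fun a => ∑ x, a.1 x * G.adjMatrix ℝ x u.1 - a.2).prod)) =
      N.map (Int.castRingHom ℝ) := by
    ext v u
    simp only [Matrix.of_apply, Matrix.map_apply, N, l, List.map_map, one_mul]
    rw [Finset.prod_map_toList, map_prod]
    refine Finset.prod_congr rfl fun a _ => ?_
    simp only [Function.comp_apply]
    rw [sum_adj]
    simp
  have hdetN : N.det ≠ 0 := by
    intro h0
    have h2 : (N.map (Int.castRingHom (ZMod p))).det = 0 := by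
      have := RingHom.map_det (Int.castRingHom (ZMod p)) N
      rw [h0, map_zero] at this
      exact this.symm
    revert h2
    have hz : ∀ z c : ℤ, ((z - c : ℤ) : ZMod p) = 0 ↔ z ≡ c [ZMOD p] := by
      intro z c
      rw [ZMod.intCast_zmod_eq_zero_iff_dvd, Int.modEq_comm, Int.modEq_iff_dvd]
    refine det_ne_zero _ (fun v : T => h v.1) ?_ ?_
    · intro v
      simp only [Matrix.map_apply, N, Matrix.of_apply, map_prod]
      refine Finset.prod_ne_zero_iff.2 fun a ha => ?_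
      rw [eq_intCast, ne_eq, hz]
      exact hB2 v a ha
    · intro v u huv hle
      simp only [Matrix.map_apply, N, Matrix.of_apply, map_prod]
      obtain ⟨a, ha, hau⟩ := hB3 v u.1 u.2 (fun hc => huv (Subtype.ext hc)) hle
      refine Finset.prod_eq_zero ha ?_
      rw [eq_intCast, hz]
      exact hau
  have h2 := card_le_of_det _ _ ?_ h1
  · rwa [Fintype.card_coe] at h2
  · rw [hF]
    have h3 := RingHom.map_det (Int.castRingHom ℝ) N
    rw [RingHom.mapMatrix_apply] at h3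
    rw [← h3]
    simp only [eq_intCast, ne_eq, Int.cast_eq_zero]
    exact hdetN

/-- Universal sets for inequations over the reals. -/
theorem universal (r : ℕ) (hr : (G.adjMatrix ℝ).rank ≤ r) (W : Finset V) (d : ℕ) :
    ∃ T ⊆ W, T.card ≤ (r + d).choose d ∧ ∀ u ∈ W, ∀ H : Finset ((V → ℝ) × ℝ), H.card ≤ d →
      (∀ a ∈ H, ∑ x ∈ G.neighborFinset u, a.1 x ≠ a.2) →
      ∃ v ∈ T, ∀ a ∈ H, ∑ x ∈ G.neighborFinset v, a.1 x ≠ a.2 := by
  have hg := greedy W ((r + d).choose d)
    (fun u T => ∃ H : Finset ((V → ℝ) × ℝ), H.card ≤ d ∧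
      (∀ a ∈ H, ∑ x ∈ G.neighborFinset u, a.1 x ≠ a.2) ∧
      ∀ v ∈ T, ∃ a ∈ H, ∑ x ∈ G.neighborFinset v, a.1 x = a.2)
    (by
      rintro u T ⟨H, -, h1, h2⟩ huT
      obtain ⟨a, ha, h3⟩ := h2 u huT
      exact h1 a ha h3)
    (by
      intro T h _ hh
      refine card_le_hyper G r hr T h d fun v hv => ?_
      obtain ⟨H, h1, h2, h3⟩ := hh v hv
      exact ⟨H, h1, h2, fun u hu huv hle => h3 u (Finset.mem_filter.2 ⟨hu, huv, hle⟩)⟩)
  obtain ⟨T, hTW, hT, hu⟩ := hg
  refine ⟨T, hTW, hT, fun u huW H hH h1 => ?_⟩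
  by_contra hcon
  push Not at hcon
  exact hu u huW ⟨H, hH, h1, hcon⟩

/-- Universal sets for incongruences modulo a prime. -/
theorem universal_mod (r : ℕ) (hr : (G.adjMatrix ℝ).rank ≤ r) (W : Finset V) (d p : ℕ)
    (hp : p.Prime) :
    ∃ T ⊆ W, T.card ≤ (r + d).choose d ∧ ∀ u ∈ W, ∀ H : Finset ((V → ℤ) × ℤ), H.card ≤ d →
      (∀ a ∈ H, ¬ ∑ x ∈ G.neighborFinset u, a.1 x ≡ a.2 [ZMOD p]) →
      ∃ v ∈ T, ∀ a ∈ H, ¬ ∑ x ∈ G.neighborFinset v, a.1 x ≡ a.2 [ZMOD p] := by
  have hg := greedy W ((r + d).choose d)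
    (fun u T => ∃ H : Finset ((V → ℤ) × ℤ), H.card ≤ d ∧
      (∀ a ∈ H, ¬ ∑ x ∈ G.neighborFinset u, a.1 x ≡ a.2 [ZMOD p]) ∧
      ∀ v ∈ T, ∃ a ∈ H, ∑ x ∈ G.neighborFinset v, a.1 x ≡ a.2 [ZMOD p])
    (by
      rintro u T ⟨H, -, h1, h2⟩ huT
      obtain ⟨a, ha, h3⟩ := h2 u huT
      exact h1 a ha h3)
    (by
      intro T h _ hh
      refine card_le_hyper_mod G r hr T h d p hp fun v hv => ?_
      obtain ⟨H, h1, h2, h3⟩ := hh v hv
      exact ⟨H, h1, h2, fun u hu huv hle => h3 u (Finset.mem_filter.2 ⟨hu, huv, hle⟩)⟩)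
  obtain ⟨T, hTW, hT, hu⟩ := hg
  refine ⟨T, hTW, hT, fun u huW H hH h1 => ?_⟩
  by_contra hcon
  push Not at hcon
  exact hu u huW ⟨H, hH, h1, hcon⟩

/-- Universal sets modulo a prime power. -/
theorem universal_primePow (r : ℕ) (hr : (G.adjMatrix ℝ).rank ≤ r) (W : Finset V) (q t : ℕ)
    (hq : IsPrimePow q) :
    ∃ T ⊆ W, T.card ≤ (r + (t + (q - 1))).choose (t + (q - 1)) ∧
      ∀ u ∈ W, ∀ (S : Finset V) (m : V → ℕ), S.card ≤ t →
        ∃ v ∈ T, G.neighborFinset v ∩ S = G.neighborFinset u ∩ S ∧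
          q ∣ ∑ x ∈ G.neighborFinset u \ G.neighborFinset v, m x := by
  have hg := greedy W ((r + (t + (q - 1))).choose (t + (q - 1)))
    (fun u T => ∃ (S : Finset V) (m : V → ℕ), S.card ≤ t ∧ ∀ v ∈ T,
      G.neighborFinset v ∩ S = G.neighborFinset u ∩ S →
        ¬ q ∣ ∑ x ∈ G.neighborFinset u \ G.neighborFinset v, m x)
    (by
      rintro u T ⟨S, m, -, h2⟩ huT
      exact h2 u huT rfl (by simp))
    (by
      intro T h _ hh
      refine card_le_primePow G r hr T h q t hq fun v hv => ?_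
      obtain ⟨S, m, h1, h2⟩ := hh v hv
      exact ⟨S, m, h1, fun u hu huv hle => h2 u (Finset.mem_filter.2 ⟨hu, huv, hle⟩)⟩)
  obtain ⟨T, hTW, hT, hu⟩ := hg
  refine ⟨T, hTW, hT, fun u huW S m hS => ?_⟩
  by_contra hcon
  push Not at hcon
  exact hu u huW ⟨S, m, hS, hcon⟩

end Pool.Agent.J4H62.FC
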