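import Pool.Agent.J4H62.FC.Graph

/-!
# Differences of neighbourhoods modulo a prime power
-/

set_option autoImplicit false

namespace Pool.Agent.J4H62.FC

open Finset Matrix

variable {V : Type} [Fintype V] [DecidableEq V] (G : SimpleGraph V) [DecidableRel G.Adj]

theorem agree_or (S : Finset V) (u v : V)
    (h : ¬ G.neighborFinset u ∩ S = G.neighborFinset v ∩ S) :
    ∃ x ∈ S, ¬ (G.Adj u x ↔ G.Adj v x) := by
  obtain ⟨x, hx⟩ : ∃ x, ¬ (x ∈ G.neighborFinset u ∩ S ↔ x ∈ G.neighborFinset v ∩ S) := by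
    by_contra hcon
    push Not at hcon
    exact h (Finset.ext hcon)
  simp only [Finset.mem_inter, SimpleGraph.mem_neighborFinset] at hx
  have hxS : x ∈ S := by
    by_contra hxS
    exact hx (by simp [hxS])
  exact ⟨x, hxS, fun hc => hx (by rw [hc])⟩

theorem list_prod_range (f : ℕ → ℝ) (n : ℕ) :
    ((List.range n).map f).prod = ∏ i ∈ Finset.range n, f i := by
  induction n with
  | zero => simp
  | succ n ih =>
    rw [List.range_succ, List.map_append, List.prod_append, ih, Finset.prod_range_succ]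
    simp

theorem prod_range_choose (e n : ℕ) :
    ∏ i ∈ Finset.range n, ((e : ℝ) + 1 + i) = (n.factorial : ℝ) * ((e + n).choose n : ℝ) := by
  have h1 := Nat.ascFactorial_eq_factorial_mul_choose e n
  rw [Nat.ascFactorial_eq_prod_range] at h1
  have h2 := congrArg (Nat.cast (R := ℝ)) h1
  push_cast at h2
  rw [← h2]

/-- Prime powers. -/
theorem card_le_primePow (r : ℕ) (hr : (G.adjMatrix ℝ).rank ≤ r) (T : Finset V) (h : V → ℝ)
    (q t : ℕ) (hq : IsPrimePow q)
    (H : ∀ v ∈ T, ∃ (S : Finset V) (m : V → ℕ), S.card ≤ t ∧ ∀ u ∈ T, u ≠ v → h u ≤ h v →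
      G.neighborFinset u ∩ S = G.neighborFinset v ∩ S →
        ¬ q ∣ ∑ x ∈ G.neighborFinset v \ G.neighborFinset u, m x) :
    T.card ≤ (r + (t + (q - 1))).choose (t + (q - 1)) := by
  classical
  obtain ⟨p, k, hp, hk, rfl⟩ := (isPrimePow_nat_iff q).1 hq
  haveI : Fact p.Prime := ⟨hp⟩
  set n := p ^ k - 1 with hn
  have H' : ∀ v : T, ∃ (S : Finset V) (m : V → ℕ), S.card ≤ t ∧ ∀ u ∈ T, u ≠ v.1 → h u ≤ h v.1 →
      G.neighborFinset u ∩ S = G.neighborFinset v.1 ∩ S →
        ¬ p ^ k ∣ ∑ x ∈ G.neighborFinset v.1 \ G.neighborFinset u, m x := fun v => H v.1 v.2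
  choose S m hS1 hS2 using H'
  let e : T → T → ℕ := fun v u => ∑ x ∈ G.neighborFinset v.1 \ G.neighborFinset u.1, m v x
  let D : T → ℕ := fun v => ∑ x ∈ G.neighborFinset v.1, m v x
  let a : V → V → ℤ := fun u x => if G.Adj u x then 1 else 0
  let N : Matrix T T ℤ := Matrix.of fun v u =>
    (∏ x ∈ S v, (a u.1 x - (1 - a v.1 x))) * ((e v u + n).choose n : ℕ)
  -- the real matrix
  let l : T → List ((V → ℝ) × ℝ) := fun v =>
    (S v).toList.map (fun x => ((Pi.single x 1 : V → ℝ), 1 - (a v.1 x : ℝ))) ++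
    (List.range n).map (fun i : ℕ => ((fun y => - ((m v y : ℝ) * G.adjMatrix ℝ v.1 y) : V → ℝ),
      -((D v : ℝ) + 1 + i)))
  have hl : ∀ v, (l v).length ≤ t + n := by
    intro v
    simp only [l, List.length_append, List.length_map, List.length_range, Finset.length_toList]
    have := hS1 v
    omega
  have h1 := rank_list_le (G.adjMatrix ℝ) hr (t + n) (fun v : T => v.1) l hl
    (fun _ => ((n.factorial : ℝ))⁻¹)
  have hdeg : ∀ v u : T, (D v : ℝ) - ∑ x, ((m v x : ℝ) * G.adjMatrix ℝ v.1 x) *
      G.adjMatrix ℝ x u.1 = (e v u : ℝ) := by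
    intro v u
    have h3 : ∑ x, ((m v x : ℝ) * G.adjMatrix ℝ v.1 x) * G.adjMatrix ℝ x u.1 =
        ((∑ x ∈ G.neighborFinset v.1 ∩ G.neighborFinset u.1, m v x : ℕ) : ℝ) := by
      rw [sum_adj, Nat.cast_sum]
      simp only [SimpleGraph.adjMatrix_apply, mul_ite, mul_one, mul_zero]
      rw [← Finset.sum_filter]
      refine Finset.sum_congr ?_ fun _ _ => rfl
      ext x
      simp [and_comm]
    rw [h3]
    have h5 : (D v : ℝ) = (e v u : ℝ) +
        ((∑ x ∈ G.neighborFinset v.1 ∩ G.neighborFinset u.1, m v x : ℕ) : ℝ) := by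
      rw [← Nat.cast_add]
      congr 1
      simp only [D, e]
      rw [← Finset.sum_union (Finset.disjoint_sdiff_inter _ _), Finset.sdiff_union_inter]
    rw [h5]
    ring
  have hF : (Matrix.of (fun v u : T => ((n.factorial : ℝ))⁻¹ *
      ((l v).map fun a => ∑ x, a.1 x * G.adjMatrix ℝ x u.1 - a.2).prod)) =
      N.map (Int.castRingHom ℝ) := by
    ext v u
    simp only [Matrix.of_apply, Matrix.map_apply, N, l, List.map_append, List.map_map,
      List.prod_append]
    have h2 : (List.map ((fun a : (V → ℝ) × ℝ => ∑ x, a.1 x * G.adjMatrix ℝ x u.1 - a.2) ∘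
        fun x => ((Pi.single x 1 : V → ℝ), 1 - (a v.1 x : ℝ))) (S v).toList).prod =
        ∏ x ∈ S v, ((a u.1 x : ℝ) - (1 - (a v.1 x : ℝ))) := by
      rw [Finset.prod_map_toList]
      refine Finset.prod_congr rfl fun x _ => ?_
      simp only [Function.comp_apply]
      rw [sum_adj, sum_single]
      simp only [a]
      push_cast
      rfl
    have h3 : (List.map ((fun a : (V → ℝ) × ℝ => ∑ x, a.1 x * G.adjMatrix ℝ x u.1 - a.2) ∘
        fun i : ℕ => ((fun y => - ((m v y : ℝ) * G.adjMatrix ℝ v.1 y) : V → ℝ),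
          -((D v : ℝ) + 1 + i))) (List.range n)).prod =
        (n.factorial : ℝ) * ((e v u + n).choose n : ℝ) := by
      rw [← prod_range_choose, ← list_prod_range]
      congr 1
      refine List.map_congr_left fun i _ => ?_
      simp only [Function.comp_apply]
      rw [← hdeg v u]
      simp only [neg_mul, Finset.sum_neg_distrib]
      ring
    rw [h2, h3]
    have hfac : (n.factorial : ℝ) ≠ 0 := by exact_mod_cast Nat.factorial_ne_zero n
    simp only [map_mul, map_prod, map_sub, map_one, eq_intCast, Int.cast_natCast]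
    field_simp
  have hdetN : N.det ≠ 0 := by
    intro h0
    have h2 : (N.map (Int.castRingHom (ZMod p))).det = 0 := by
      have := RingHom.map_det (Int.castRingHom (ZMod p)) N
      rw [h0, map_zero] at this
      exact this.symm
    revert h2
    refine det_ne_zero _ (fun v : T => h v.1) ?_ ?_
    · intro v
      simp only [Matrix.map_apply, N, Matrix.of_apply, map_mul, map_prod]
      have h3 : e v v = 0 := by simp [e]
      rw [h3, Nat.zero_add, Nat.choose_self]
      simp only [Nat.cast_one, map_one, mul_one]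
      refine Finset.prod_ne_zero_iff.2 fun x _ => ?_
      simp only [a]
      split_ifs <;> simp
    · intro v u huv hle
      simp only [Matrix.map_apply, N, Matrix.of_apply, map_mul, map_prod]
      by_cases hagr : G.neighborFinset u.1 ∩ S v = G.neighborFinset v.1 ∩ S v
      · have h3 := hS2 v u.1 u.2 (fun hc => huv (Subtype.ext hc)) hle hagr
        have h4 := dvd_choose p k (e v u) hp h3
        rw [← hn] at h4
        have h5 : (((e v u + n).choose n : ℕ) : ZMod p) = 0 :=
          (ZMod.natCast_eq_zero_iff _ _).2 h4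
        simp only [eq_intCast, Int.cast_natCast]
        rw [h5, mul_zero]
      · obtain ⟨x, hx, hxx⟩ := agree_or G (S v) u.1 v.1 hagr
        rw [Finset.prod_eq_zero hx, zero_mul]
        simp only [a]
        by_cases h6 : G.Adj u.1 x <;> by_cases h7 : G.Adj v.1 x <;> simp [h6, h7] at hxx ⊢
  have h2 := card_le_of_det _ _ ?_ h1
  · rwa [Fintype.card_coe] at h2
  · rw [hF]
    have h3 := RingHom.map_det (Int.castRingHom ℝ) N
    rw [RingHom.mapMatrix_apply] at h3
    rw [← h3]
    simp only [eq_intCast, ne_eq, Int.cast_eq_zero]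
    exact hdetN

end Pool.Agent.J4H62.FC
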